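import Pool.Agent.H960R3.DL3

/-!
# A discretely Lindelöf T₁ space whose product with a compact Hausdorff space is not discretely
Lindelöf

Negative answer (in ZFC) to Q1 of MP_0abb29_gt.  We show that for every topological space `X` that is
not Lindelöf the product of `X` with the one-point compactification of the discrete space on the
set `X` is not discretely Lindelöf, and apply this to the space of the starting theorem
`Pool.Agent.H960R3.DL.exists_space`.
-/

set_option autoImplicit false

open Set Topology

namespace Pool.Agent.Results.MP_0abb29_gt.ProductNotDiscretelyLindelof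

/-- The space `X` is discretely Lindelöf: the closure of every subset that is discrete in its
subspace topology is Lindelöf. -/
def DiscretelyLindelof (X : Type) [TopologicalSpace X] : Prop :=
  ∀ D : Set X, DiscreteTopology D → IsLindelof (closure D)

/-- A copy of the set `X`, to be given the discrete topology. -/
structure Disc (X : Type) where
  /-- the underlying element -/
  val : X

instance (X : Type) : TopologicalSpace (Disc X) := ⊥
instance (X : Type) : DiscreteTopology (Disc X) := ⟨rfl⟩

/-- The point of the one-point compactification given by an element of `X`. -/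
def pt {X : Type} (x : X) : OnePoint (Disc X) := ((⟨x⟩ : Disc X) : OnePoint (Disc X))

theorem pt_injective {X : Type} : Function.Injective (pt : X → OnePoint (Disc X)) := by
  intro x y h
  have h1 : (⟨x⟩ : Disc X) = ⟨y⟩ := OnePoint.coe_injective h
  exact congrArg Disc.val h1

theorem isOpen_pt {X : Type} (x : X) : IsOpen ({pt x} : Set (OnePoint (Disc X))) := by
  have h : IsOpen ((fun y : Disc X => (y : OnePoint (Disc X))) '' {(⟨x⟩ : Disc X)}) :=
    OnePoint.isOpenEmbedding_coe.isOpenMap _ (isOpen_discrete _)
  rwa [image_singleton] at h

/-- The graph of the identity, as a subset of the product. -/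
def graph (X : Type) : Set (X × OnePoint (Disc X)) := range fun x => (x, pt x)

theorem discrete_graph (X : Type) [TopologicalSpace X] : DiscreteTopology (graph X) := by
  rw [discreteTopology_iff_isOpen_singleton]
  rintro ⟨p, x, rfl⟩
  refine ⟨univ ×ˢ {pt x}, isOpen_univ.prod (isOpen_pt x), ?_⟩
  ext ⟨q, y, rfl⟩
  constructor
  · intro h
    have h1 : pt y = pt x := h.2
    have h2 : y = x := pt_injective h1
    subst h2
    rfl
  · intro h
    have h1 : ((y, pt y) : X × OnePoint (Disc X)) = (x, pt x) := congrArg Subtype.val h
    exact ⟨mem_univ _, congrArg Prod.snd h1⟩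

/-- If `X` is not Lindelöf, then the product of `X` with the one-point compactification of the
discrete space on `X` is not discretely Lindelöf. -/
theorem not_discretelyLindelof (X : Type) [TopologicalSpace X]
    (h : IsLindelof (closure (graph X))) : IsLindelof (univ : Set X) := by
  have h1 := h.image (f := Prod.fst) continuous_fst
  have h2 : Prod.fst '' closure (graph X) = (univ : Set X) := by
    refine eq_univ_of_forall fun x => ?_
    exact ⟨(x, pt x), subset_closure ⟨x, rfl⟩, rfl⟩
  rwa [h2] at h1

/-- There are a `T₁` discretely Lindelöf space `X` and a compact Hausdorff space `K` such that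
`X × K` is not discretely Lindelöf. -/
theorem result :
    ∃ (X K : Type) (_ : TopologicalSpace X) (_ : TopologicalSpace K),
      T1Space X ∧ DiscretelyLindelof X ∧ CompactSpace K ∧ T2Space K ∧
      ∃ D : Set (X × K), DiscreteTopology D ∧ ¬ IsLindelof (closure D) := by
  obtain ⟨X, tX, hT1, hD, 𝒰, hO, hC, hN⟩ := Pool.Agent.H960R3.DL.exists_space
  refine ⟨X, OnePoint (Disc X), tX, inferInstance, hT1, ?_, inferInstance, inferInstance,
    graph X, discrete_graph X, fun h => ?_⟩
  · intro D hDisc
    rw [isLindelof_iff_lindelofSpace]
    exact hD D hDisc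
  · have hL := not_discretelyLindelof X h
    obtain ⟨r, hr1, hr2⟩ := hL.elim_countable_subcover (fun U : 𝒰 => (U : Set X))
      (fun U => hO U U.2) (by rw [← sUnion_eq_iUnion, hC])
    refine hN ((fun U : 𝒰 => (U : Set X)) '' r) ?_ (hr1.image _) ?_
    · rintro _ ⟨U, -, rfl⟩
      exact U.2
    · have h3 : ⋃₀ ((fun U : 𝒰 => (U : Set X)) '' r) = univ := by
        refine eq_univ_of_forall fun x => ?_
        obtain ⟨U, hU, hxU⟩ := mem_iUnion₂.1 (hr2 (mem_univ x))
        exact ⟨U, ⟨U, hU, rfl⟩, hxU⟩
      rw [h3]
      exact dense_univ

end Pool.Agent.Results.MP_0abb29_gt.ProductNotDiscretelyLindelof
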